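import Pool.Agent.N821.CS.Stm

/-!
# Project CS, leaf WS: weak closeness gives strong closeness for isometric semigroups
(helper933 for helper821)
-/

set_option autoImplicit false

namespace Pool.Agent.N933.CS.WS

open Pool.Agent.N821.CS
open scoped InnerProductSpace NNReal Topology
open Filter

universe u

theorem t : Pool.Agent.N821.CS.S_WS.{u} := by
  intro H _ _ x hx V hV N ε hε
  have hK : IsCompact (⋃ i ∈ Set.Iio N, (fun t : ℝ≥0 => V.op t (x i)) '' Set.Icc 0 (N : ℝ≥0)) :=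
    (Set.finite_Iio N).isCompact_biUnion fun i _ => isCompact_Icc.image (V.cont (x i))
  obtain ⟨B, hB⟩ : ∃ B : ℝ, B = 1 + ∑ i ∈ Finset.range N, ‖x i‖ := ⟨_, rfl⟩
  have hB0 : 0 < B := by
    rw [hB]
    positivity
  have hBi : ∀ i < N, ‖x i‖ ≤ B := by
    intro i hi
    rw [hB]
    have h1 := Finset.single_le_sum (f := fun i => ‖x i‖) (fun j _ => norm_nonneg (x j))
      (Finset.mem_range.2 hi)
    linarith
  obtain ⟨η, hη⟩ : ∃ η : ℝ, η = ε ^ 2 / (8 * B) := ⟨_, rfl⟩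
  have hη0 : 0 < η := by
    rw [hη]
    positivity
  obtain ⟨s, hs⟩ := hK.elim_finite_subcover (fun j : ℕ => Metric.ball (x j) η)
    (fun j => Metric.isOpen_ball) (by
      intro y _
      obtain ⟨j, hj⟩ := hx.exists_dist_lt y hη0
      exact Set.mem_iUnion.2 ⟨j, hj⟩)
  refine ⟨max N (s.sup id + 1), ε ^ 2 / 8, by positivity, fun V' hV' h i hi t ht => ?_⟩
  have hy : V.op t (x i) ∈ (⋃ i ∈ Set.Iio N, (fun t : ℝ≥0 => V.op t (x i)) ''
      Set.Icc 0 (N : ℝ≥0)) := by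
    refine Set.mem_biUnion (x := i) hi ?_
    exact ⟨t, ⟨zero_le, ht⟩, rfl⟩
  obtain ⟨j, hj, hj2⟩ := Set.mem_iUnion₂.1 (hs hy)
  have hjM : j < max N (s.sup id + 1) :=
    lt_of_lt_of_le (Nat.lt_succ_of_le (Finset.le_sup (f := id) hj)) (le_max_right _ _)
  have h1 := h i (lt_of_lt_of_le hi (le_max_left _ _)) j hjM t
    (ht.trans (by exact_mod_cast le_max_left _ _))
  rw [ContinuousLinearMap.sub_apply] at h1
  rw [Metric.mem_ball, dist_eq_norm] at hj2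
  have ha : ‖V'.op t (x i)‖ = ‖x i‖ := hV' t (x i)
  have hb : ‖V.op t (x i)‖ = ‖x i‖ := hV t (x i)
  have hxB := hBi i hi
  generalize V'.op t (x i) = a at *
  generalize V.op t (x i) = b at *
  have e1 : ‖a - b‖ ^ 2 = 2 * (⟪b - a, b⟫_ℂ).re := by
    have e2 := norm_sub_sq (𝕜 := ℂ) a b
    have e3 : (⟪b - a, b⟫_ℂ).re = ‖b‖ ^ 2 - (⟪a, b⟫_ℂ).re := by
      rw [inner_sub_left, Complex.sub_re]
      have e4 := inner_self_eq_norm_sq (𝕜 := ℂ) b
      rw [RCLike.re_to_complex] at e4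
      rw [e4]
    rw [RCLike.re_to_complex] at e2
    rw [e2, e3, ha, hb]
    ring
  have e5 : (⟪b - a, b⟫_ℂ).re ≤ ‖⟪b - a, b⟫_ℂ‖ := Complex.re_le_norm _
  have e6 : ⟪b - a, b⟫_ℂ = ⟪b - a, x j⟫_ℂ + ⟪b - a, b - x j⟫_ℂ := by
    rw [← inner_add_right]
    congr 1
    abel
  have e7 : ‖⟪b - a, b⟫_ℂ‖ ≤ ‖⟪b - a, x j⟫_ℂ‖ + ‖⟪b - a, b - x j⟫_ℂ‖ := by
    rw [e6]
    exact norm_add_le _ _
  have e8 : ‖⟪b - a, b - x j⟫_ℂ‖ ≤ ‖b - a‖ * ‖b - x j‖ := norm_inner_le_norm _ _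
  have e9 : ‖b - a‖ ≤ 2 * B := by
    refine (norm_sub_le b a).trans ?_
    rw [ha, hb]
    linarith
  have e10 : ‖b - a‖ * ‖b - x j‖ ≤ (2 * B) * η :=
    mul_le_mul e9 hj2.le (norm_nonneg _) (by linarith)
  have e11 : (2 * B) * η = ε ^ 2 / 4 := by
    rw [hη]
    field_simp
    ring
  have e12 : ‖a - b‖ ^ 2 < ε ^ 2 := by
    have : 0 < ε ^ 2 := by positivity
    rw [e1]
    linarith
  exact lt_of_pow_lt_pow_left₀ 2 hε.le e12

end Pool.Agent.N933.CS.WS
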